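import Pool.Agent.Y345.AC.Desc

set_option autoImplicit false

/-!
A checkable certificate for the descent property of a uniform map into `ℤ × ZMod p`.
Letters 0, 1, 2 stand for (0,0), (0,1), (1,0).
-/

namespace Pool.Agent.Y345.AC

open Finset Pool.Agent.Helper776.Dekking Pool.Agent.Helper776

/-- vector of a letter -/
def lv (p : ℕ) (c : ℕ) : ℤ × ZMod p := ((if c = 2 then 1 else 0 : ℕ), (if c = 1 then 1 else 0 : ℕ))

/-- class of a boundary -/
def clsV (L kap ta wu wt : ℕ) (pu pt : ℕ → ℕ → ℕ) (a r : ℕ) : ℕ :=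
  (L * (wu * pu a r + wt * pt a r) + ta * r) % (L * kap)

theorem uniform_descentV (p n L kap ta wu wt al1 al2 be1 be2 : ℕ) (w : ℕ → ℕ)
    (g pu pt : ℕ → ℕ → ℕ) (mask M : ℕ)
    (hL : 0 < L) (hkap : 0 < kap) (hal1 : 0 < al1)
    (hwt : kap ∣ p * wt) (hal : kap ∣ wu * al1 + wt * al2)
    (hbe : kap ∣ wu * be1 + wt * be2 + ta) (hco : Nat.Coprime ta L)
    (h0 : ∀ a < n, pu a 0 = 0 ∧ pt a 0 = 0)
    (hLu : ∀ a < n, pu a L = be1 + al1 * w a)
    (hLt : ∀ a < n, pt a L % p = (be2 + al2 * w a) % p)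
    (hsu : ∀ a < n, ∀ r < L, pu a (r + 1) = pu a r + (if g a r = 2 then 1 else 0))
    (hst : ∀ a < n, ∀ r < L, pt a (r + 1) = pt a r + (if g a r = 1 then 1 else 0))
    (hmem : ∀ a < n, ∀ r < L, mask.testBit (clsV L kap ta wu wt pu pt a r) = true)
    (hM : ∀ e < 4 * (L * kap), M.testBit e = mask.testBit (e % (L * kap)))
    (hA : ∀ d < L * kap, 0 < d →
      (mask &&& (M >>> d) &&& (M >>> (2 * d)) &&& (M >>> (3 * d))) = 0)
    (hty : ∀ r < L, ∀ a0 < n, ∀ a1 < n, ∀ a2 < n, ∀ a3 < n,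
      (clsV L kap ta wu wt pu pt a0 r = clsV L kap ta wu wt pu pt a1 r ∧
       clsV L kap ta wu wt pu pt a1 r = clsV L kap ta wu wt pu pt a2 r ∧
       clsV L kap ta wu wt pu pt a2 r = clsV L kap ta wu wt pu pt a3 r) →
      (((pu a0 r = pu a1 r ∧ pu a1 r = pu a2 r ∧ pu a2 r = pu a3 r) ∧
        (pt a0 r % p = pt a1 r % p ∧ pt a1 r % p = pt a2 r % p ∧ pt a2 r % p = pt a3 r % p)) ∨
       ((pu a0 r + al1 * w a1 = pu a1 r + al1 * w a0 ∧ pu a1 r + al1 * w a2 = pu a2 r + al1 * w a1 ∧
        pu a2 r + al1 * w a3 = pu a3 r + al1 * w a2) ∧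
        ((pt a0 r + al2 * w a1) % p = (pt a1 r + al2 * w a0) % p ∧
         (pt a1 r + al2 * w a2) % p = (pt a2 r + al2 * w a1) % p ∧
         (pt a2 r + al2 * w a3) % p = (pt a3 r + al2 * w a2) % p))))
    (x : ℕ → ℕ) (hx : ∀ i, x i < n) (y : ℕ → ℕ)
    (hy : ∀ m r, r < L → y (L * m + r) = g (x m) r)
    (n0 k : ℕ) (h : IsCube (fun i => lv p (y i)) n0 k) :
    ∃ m q, k = L * q ∧ IsCube (fun i => (w (x i) : ℤ)) m q := by
  have hN : 0 < L * kap := Nat.mul_pos hL hkap
  have hcz : ((p : ℕ) : ℤ) • (((L * wt : ℕ)) : ZMod (L * kap)) = 0 := by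
    obtain ⟨c, hc⟩ := hwt
    have : ((p : ℕ) : ℤ) • (((L * wt : ℕ)) : ZMod (L * kap)) = ((L * (p * wt) : ℕ) : ZMod (L * kap)) := by
      rw [zsmul_eq_mul]; push_cast; ring
    rw [this, hc, ZMod.natCast_eq_zero_iff]
    exact ⟨c, by ring⟩
  let ft : ZMod p →+ ZMod (L * kap) :=
    ZMod.lift p ⟨(zmultiplesHom (ZMod (L * kap))) (((L * wt : ℕ)) : ZMod (L * kap)), by
      simpa using hcz⟩
  have hft : ∀ t : ℕ, ft (t : ZMod p) = ((L * wt * t : ℕ) : ZMod (L * kap)) := by
    intro t
    have : ft ((t : ℤ) : ZMod p) = (t : ℤ) • (((L * wt : ℕ)) : ZMod (L * kap)) := by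
      simp only [ft]
      rw [ZMod.lift_coe]
      simp
    rw [Int.cast_natCast] at this
    rw [this, zsmul_eq_mul]
    push_cast
    ring
  let fu : ℤ →+ ZMod (L * kap) := (zmultiplesHom (ZMod (L * kap))) (((L * wu : ℕ)) : ZMod (L * kap))
  have hfu : ∀ t : ℕ, fu (t : ℤ) = ((L * wu * t : ℕ) : ZMod (L * kap)) := by
    intro t
    simp only [fu, zmultiplesHom_apply, zsmul_eq_mul]
    push_cast
    ring
  let f : ℤ × ZMod p →+ ZMod (L * kap) := AddMonoidHom.coprod fu ft
  have hf : ∀ u t : ℕ, f ((u : ℤ), (t : ZMod p)) = ((L * (wu * u + wt * t) : ℕ) : ZMod (L * kap)) := by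
    intro u t
    simp only [f, AddMonoidHom.coprod_apply, hfu, hft]
    push_cast
    ring
  have cast : ∀ (a r : ℕ), ((clsV L kap ta wu wt pu pt a r : ℕ) : ZMod (L * kap)) =
      r • ((ta : ℕ) : ZMod (L * kap)) + f ((pu a r : ℤ), (pt a r : ZMod p)) := by
    intro a r
    have : ((clsV L kap ta wu wt pu pt a r : ℕ) : ZMod (L * kap)) =
        ((L * (wu * pu a r + wt * pt a r) + ta * r : ℕ) : ZMod (L * kap)) := by
      rw [ZMod.natCast_eq_natCast_iff]
      exact Nat.mod_modEq _ _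
    rw [this, hf, nsmul_eq_mul]
    push_cast
    ring
  have key := descendW (ι := Fin n) (V := ℤ × ZMod p) (W := ZMod (L * kap)) L hL
    (fun i => (⟨x i, hx i⟩ : Fin n))
    (fun a => (w a : ℤ)) (fun a r => lv p (g a r))
    (fun a r => ((pu a r : ℤ), (pt a r : ZMod p)))
    ((al1 : ℤ), (al2 : ZMod p)) ((be1 : ℤ), (be2 : ZMod p))
    (fun a => by simp [(h0 a a.2).1, (h0 a a.2).2])
    (fun a r hr => by
      simp only [lv, hsu a a.2 r hr, hst a a.2 r hr, Prod.mk_add_mk, Nat.cast_add])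
    (fun a => by
      have e2 : ((pt a L : ℕ) : ZMod p) = ((be2 + al2 * w a : ℕ) : ZMod p) := by
        rw [ZMod.natCast_eq_natCast_iff]
        exact hLt a a.2
      simp only [e2, hLu a a.2, Prod.smul_mk, Prod.mk_add_mk, smul_eq_mul, zsmul_eq_mul]
      push_cast
      ext <;> simp <;> ring)
    (fun i => lv p (y i))
    (fun m r hr => by simp only [hy m r hr])
    (fun z hz => by
      have h1 : z * (al1 : ℤ) = 0 := by
        have := congrArg Prod.fst hz
        simpa using this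
      rcases mul_eq_zero.1 h1 with h | h
      · exact h
      · have : (al1 : ℤ) ≠ 0 := by exact_mod_cast hal1.ne'
        exact absurd h this)
    ((ta : ℕ) : ZMod (L * kap)) f
    (by
      rw [hf, ZMod.natCast_eq_zero_iff]
      exact Nat.mul_dvd_mul_left L hal)
    (by
      rw [hf, nsmul_eq_mul]
      have : ((L : ℕ) : ZMod (L * kap)) * ((ta : ℕ) : ZMod (L * kap)) +
          ((L * (wu * be1 + wt * be2) : ℕ) : ZMod (L * kap)) =
          ((L * (wu * be1 + wt * be2 + ta) : ℕ) : ZMod (L * kap)) := by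
        push_cast; ring
      rw [this, ZMod.natCast_eq_zero_iff]
      exact Nat.mul_dvd_mul_left L hbe)
    (by
      intro a0 a1 a2 a3 r0 r1 r2 r3 q0 q1 q2 q3 d1 d2
      rw [← cast, ← cast, ← cast] at d1 d2
      set N := L * kap with hNdef
      set C0 := clsV L kap ta wu wt pu pt a0 r0 with hC0
      set C1 := clsV L kap ta wu wt pu pt a1 r1 with hC1
      set C2 := clsV L kap ta wu wt pu pt a2 r2 with hC2
      set C3 := clsV L kap ta wu wt pu pt a3 r3 with hC3
      have lt0 : C0 < N := Nat.mod_lt _ hN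
      have lt1 : C1 < N := Nat.mod_lt _ hN
      have lt2 : C2 < N := Nat.mod_lt _ hN
      have lt3 : C3 < N := Nat.mod_lt _ hN
      have z1 : ((C0 : ℕ) : ZMod N) - 2 * (C1 : ZMod N) + (C2 : ZMod N) = 0 := by
        rw [← d1, nsmul_eq_mul]; push_cast; ring
      have z2 : ((C1 : ℕ) : ZMod N) - 2 * (C2 : ZMod N) + (C3 : ZMod N) = 0 := by
        rw [← d2, nsmul_eq_mul]; push_cast; ring
      set d := (C1 + N - C0) % N with hd
      have hdN : d < N := Nat.mod_lt _ hN
      have zd : (d : ZMod N) = (C1 : ZMod N) - (C0 : ZMod N) := by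
        have : ((d : ℕ) : ZMod N) = ((C1 + N - C0 : ℕ) : ZMod N) := by
          rw [ZMod.natCast_eq_natCast_iff]
          exact Nat.mod_modEq _ _
        rw [this, Nat.cast_sub (by omega)]
        push_cast
        simp
      have E : ∀ (C j : ℕ), C < N → (C : ZMod N) = (C0 : ZMod N) + j * (d : ZMod N) →
          C = (C0 + j * d) % N := by
        intro C j hC hz
        have : ((C : ℕ) : ZMod N) = ((C0 + j * d : ℕ) : ZMod N) := by
          rw [hz]; push_cast; ring
        rw [ZMod.natCast_eq_natCast_iff] at this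
        rw [← Nat.mod_eq_of_lt hC]
        exact this
      have e1 : C1 = (C0 + 1 * d) % N := E C1 1 lt1 (by rw [zd]; push_cast; ring)
      have e2 : C2 = (C0 + 2 * d) % N := E C2 2 lt2 (by
        rw [zd]; push_cast; linear_combination z1)
      have e3 : C3 = (C0 + 3 * d) % N := E C3 3 lt3 (by
        rw [zd]; push_cast; linear_combination z2 + 2 * z1)
      have hd0 : d = 0 := by
        by_contra hne
        have hpos : 0 < d := Nat.pos_of_ne_zero hne
        have m0 := hmem a0 a0.2 r0 q0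
        have m1 := hmem a1 a1.2 r1 q1
        have m2 := hmem a2 a2.2 r2 q2
        have m3 := hmem a3 a3.2 r3 q3
        rw [← hC0] at m0
        rw [← hC1, e1, one_mul] at m1
        rw [← hC2, e2] at m2
        rw [← hC3, e3] at m3
        exact Cert.apfree N mask M hM hA C0 d lt0 hdN hpos m0 m1 m2 m3
      rw [hd0] at e1 e2 e3
      simp only [mul_zero, add_zero, Nat.mod_eq_of_lt lt0] at e1 e2 e3
      have place : ∀ (a b r t : ℕ), r < L → t < L →
          clsV L kap ta wu wt pu pt a r = clsV L kap ta wu wt pu pt b t → r = t := by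
        intro a b r t hr ht hc
        have h1 : (L * (wu * pu a r + wt * pt a r) + ta * r) ≡
          (L * (wu * pu b t + wt * pt b t) + ta * t) [MOD L * kap] := hc
        have h2 := h1.of_mul_right kap
        have h3 : ta * r ≡ ta * t [MOD L] := by
          have u1 : L * (wu * pu a r + wt * pt a r) + ta * r ≡ ta * r [MOD L] := by
            unfold Nat.ModEq; simp
          have u2 : L * (wu * pu b t + wt * pt b t) + ta * t ≡ ta * t [MOD L] := by
            unfold Nat.ModEq; simp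
          exact u1.symm.trans (h2.trans u2)
        have h4 := Nat.ModEq.cancel_left_of_coprime (by
          rw [Nat.gcd_comm]; exact hco) h3
        unfold Nat.ModEq at h4
        rwa [Nat.mod_eq_of_lt hr, Nat.mod_eq_of_lt ht] at h4
      have s01 : r0 = r1 := place a0 a1 r0 r1 q0 q1 e1.symm
      have s12 : r1 = r2 := place a1 a2 r1 r2 q1 q2 (e1.trans e2.symm)
      have s23 : r2 = r3 := place a2 a3 r2 r3 q2 q3 (e2.trans e3.symm)
      subst s01 s12 s23
      refine ⟨⟨rfl, rfl, rfl⟩, ?_⟩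
      have t := hty r0 q0 a0 a0.2 a1 a1.2 a2 a2.2 a3 a3.2
        ⟨e1.symm, e1.trans e2.symm, e2.trans e3.symm⟩
      have zc : ∀ A B : ℕ, A % p = B % p → ((A : ℕ) : ZMod p) = (B : ZMod p) := by
        intro A B hAB
        rw [ZMod.natCast_eq_natCast_iff]
        exact hAB
      rcases t with ⟨⟨t1, t2, t3⟩, ⟨v1, v2, v3⟩⟩ | ⟨⟨t1, t2, t3⟩, ⟨v1, v2, v3⟩⟩
      · left
        refine ⟨?_, ?_, ?_⟩
        · rw [t1, zc _ _ v1]
        · rw [t2, zc _ _ v2]
        · rw [t3, zc _ _ v3]
      · right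
        have sh : ∀ (a b : ℕ), pu a r0 + al1 * w b = pu b r0 + al1 * w a →
            (pt a r0 + al2 * w b) % p = (pt b r0 + al2 * w a) % p →
            (((pu a r0 : ℤ), (pt a r0 : ZMod p)) : ℤ × ZMod p) - ((w a : ℕ) : ℤ) • (((al1 : ℤ), (al2 : ZMod p)) : ℤ × ZMod p) =
            (((pu b r0 : ℤ), (pt b r0 : ZMod p)) : ℤ × ZMod p) - ((w b : ℕ) : ℤ) • (((al1 : ℤ), (al2 : ZMod p)) : ℤ × ZMod p) := by
          intro a b hu ht
          have hu' : (pu a r0 : ℤ) + al1 * w b = pu b r0 + al1 * w a := by exact_mod_cast hu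
          have ht' : (pt a r0 : ZMod p) + al2 * w b = pt b r0 + al2 * w a := by
            have := zc _ _ ht
            push_cast at this
            exact this
          ext
          · simp only [Prod.fst_sub, Prod.smul_fst, smul_eq_mul]
            linear_combination hu'
          · simp only [Prod.snd_sub, Prod.smul_snd]
            simp only [zsmul_eq_mul]
            push_cast
            linear_combination ht'
        exact ⟨sh _ _ t1 v1, sh _ _ t2 v2, sh _ _ t3 v3⟩)
    n0 k h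
  exact key

end Pool.Agent.Y345.AC
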