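import Pool.Agent.Helper776.Cert

set_option autoImplicit false

/-!
Descent for uniform maps into an abelian group, with classes in an abelian group `W`.
-/

namespace Pool.Agent.Y345.AC

open Finset Pool.Agent.Helper776.Dekking

/-- Descent lemma with classes in an arbitrary abelian group. -/
theorem descendW {ι V W : Type*} [AddCommGroup V] [AddCommGroup W] (L : ℕ) (hL : 0 < L)
    (x : ℕ → ι) (s : ι → ℤ)
    (G : ι → ℕ → V) (P : ι → ℕ → V) (α β : V)
    (hP0 : ∀ a, P a 0 = 0) (hP : ∀ a r, r < L → P a (r + 1) = P a r + G a r)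
    (hPL : ∀ a, P a L = β + s a • α) (y : ℕ → V) (hy : ∀ m r, r < L → y (L * m + r) = G (x m) r)
    (hα : ∀ z : ℤ, z • α = 0 → z = 0)
    (τ : W) (f : V →+ W) (hfα : f α = 0) (hfβ : L • τ + f β = 0)
    (hcheck : ∀ (a0 a1 a2 a3 : ι) (r0 r1 r2 r3 : ℕ), r0 < L → r1 < L → r2 < L → r3 < L →
      (r0 • τ + f (P a0 r0)) - 2 • (r1 • τ + f (P a1 r1)) + (r2 • τ + f (P a2 r2)) = 0 →
      (r1 • τ + f (P a1 r1)) - 2 • (r2 • τ + f (P a2 r2)) + (r3 • τ + f (P a3 r3)) = 0 →
      (r0 = r1 ∧ r1 = r2 ∧ r2 = r3) ∧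
      ((P a0 r0 = P a1 r0 ∧ P a1 r0 = P a2 r0 ∧ P a2 r0 = P a3 r0) ∨
       (P a0 r0 - s a0 • α = P a1 r0 - s a1 • α ∧ P a1 r0 - s a1 • α = P a2 r0 - s a2 • α ∧
        P a2 r0 - s a2 • α = P a3 r0 - s a3 • α)))
    (n k : ℕ) (h : IsCube y n k) :
    ∃ m q, k = L * q ∧ IsCube (fun i => s (x i)) m q := by
  obtain ⟨h1, h2⟩ := h
  have dec : ∀ t : ℕ, S y t = (t / L) • β + (S (fun i => s (x i)) (t / L)) • α
      + P (x (t / L)) (t % L) := by
    intro t
    have := S_image L hL x s G P α β hP0 hP hPL y hy (t / L) (t % L) (Nat.mod_lt _ hL).le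
    rwa [Nat.div_add_mod] at this
  have cls : ∀ t : ℕ, t • τ + f (S y t) = (t % L) • τ + f (P (x (t / L)) (t % L)) := by
    intro t
    have e1 : f (S y t) = (t / L) • f β + f (P (x (t / L)) (t % L)) := by
      conv_lhs => rw [dec t]
      rw [map_add, map_add, map_nsmul, map_zsmul, hfα, smul_zero, add_zero]
    have e2 : t • τ = (t / L) • (L • τ) + (t % L) • τ := by
      conv_lhs => rw [← Nat.div_add_mod t L]
      rw [add_smul, mul_comm, mul_smul]
    rw [e1, e2]
    have e3 : (t / L) • (L • τ) + (t / L) • f β = 0 := by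
      rw [← smul_add, hfβ, smul_zero]
    calc (t / L) • (L • τ) + (t % L) • τ + ((t / L) • f β + f (P (x (t / L)) (t % L)))
        = ((t / L) • (L • τ) + (t / L) • f β) + ((t % L) • τ + f (P (x (t / L)) (t % L))) := by abel
      _ = _ := by rw [e3, zero_add]
  have g1 : f (S y n) - 2 • f (S y (n + k)) + f (S y (n + 2 * k)) = 0 := by
    have := congrArg f h1
    simpa [map_add, map_sub, map_nsmul] using this
  have g2 : f (S y (n + k)) - 2 • f (S y (n + 2 * k)) + f (S y (n + 3 * k)) = 0 := by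
    have := congrArg f h2
    simpa [map_add, map_sub, map_nsmul] using this
  have c0 := cls n
  have c1 := cls (n + k)
  have c2 := cls (n + 2 * k)
  have c3 := cls (n + 3 * k)
  have H := hcheck (x (n / L)) (x ((n + k) / L)) (x ((n + 2 * k) / L)) (x ((n + 3 * k) / L))
    (n % L) ((n + k) % L) ((n + 2 * k) % L) ((n + 3 * k) % L)
    (Nat.mod_lt _ hL) (Nat.mod_lt _ hL) (Nat.mod_lt _ hL) (Nat.mod_lt _ hL)
    (by
      rw [← c0, ← c1, ← c2, ← g1]
      simp only [add_smul, mul_smul, smul_add, two_smul]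
      abel)
    (by
      rw [← c1, ← c2, ← c3, ← g2]
      simp only [add_smul, mul_smul, smul_add, two_smul]
      have : (3 : ℕ) • (k • τ) = k • τ + k • τ + k • τ := by
        rw [show (3 : ℕ) = 1 + 1 + 1 from rfl, add_smul, add_smul, one_smul]
      rw [this]
      abel)
  obtain ⟨⟨hr1, hr2, hr3⟩, hty⟩ := H
  have hLk : L ∣ k := by
    have : (n + 0) % L = (n + k) % L := by simpa using hr1
    have h' := (Nat.ModEq.add_left_cancel' n this)
    exact (Nat.modEq_zero_iff_dvd).1 h'.symm
  obtain ⟨q, rfl⟩ := hLk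
  have q1 : (n + L * q) / L = n / L + q := by
    rw [Nat.add_mul_div_left _ _ hL]
  have q2 : (n + 2 * (L * q)) / L = n / L + 2 * q := by
    rw [show 2 * (L * q) = L * (2 * q) by ring, Nat.add_mul_div_left _ _ hL]
  have q3 : (n + 3 * (L * q)) / L = n / L + 3 * q := by
    rw [show 3 * (L * q) = L * (3 * q) by ring, Nat.add_mul_div_left _ _ hL]
  have E0 := dec n
  have E1 := dec (n + L * q)
  have E2 := dec (n + 2 * (L * q))
  have E3 := dec (n + 3 * (L * q))
  rw [q1, ← hr1] at E1
  rw [q2, ← hr2, ← hr1] at E2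
  rw [q3, ← hr3, ← hr2, ← hr1] at E3
  rw [q1, q2, q3] at hty
  set m := n / L with hm
  set r := n % L with hr
  rw [E0, E1, E2] at h1
  rw [E1, E2, E3] at h2
  set X := fun i => s (x i) with hX
  rcases hty with ⟨p1, p2, p3⟩ | ⟨p1, p2, p3⟩
  · refine ⟨m, q, rfl, ?_, ?_⟩
    · have : (S X m - 2 • S X (m + q) + S X (m + 2 * q)) • α = 0 := by
        rw [← h1, ← p2, ← p1]
        module
      simpa using hα _ this
    · have : (S X (m + q) - 2 • S X (m + 2 * q) + S X (m + 3 * q)) • α = 0 := by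
        rw [← h2, ← p3, ← p2, ← p1]
        module
      simpa using hα _ this
  · refine ⟨m + 1, q, rfl, ?_, ?_⟩
    · have : (S X (m + 1) - 2 • S X (m + 1 + q) + S X (m + 1 + 2 * q)) • α = 0 := by
        rw [← h1]
        have t1 : S X (m + 1) = S X m + s (x m) := S_succ _ _
        have t2 : S X (m + 1 + q) = S X (m + q) + s (x (m + q)) := by
          rw [show m + 1 + q = m + q + 1 by ring, S_succ]
        have t3 : S X (m + 1 + 2 * q) = S X (m + 2 * q) + s (x (m + 2 * q)) := by
          rw [show m + 1 + 2 * q = m + 2 * q + 1 by ring, S_succ]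
        rw [t1, t2, t3]
        have e0 : P (x (m + q)) r = P (x m) r - s (x m) • α + s (x (m + q)) • α := by
          rw [p1]; abel
        have e1 : P (x (m + 2 * q)) r = P (x m) r - s (x m) • α + s (x (m + 2 * q)) • α := by
          rw [p1, p2]; abel
        rw [e0, e1]
        module
      simpa using hα _ this
    · have : (S X (m + 1 + q) - 2 • S X (m + 1 + 2 * q) + S X (m + 1 + 3 * q)) • α = 0 := by
        rw [← h2]
        have t2 : S X (m + 1 + q) = S X (m + q) + s (x (m + q)) := by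
          rw [show m + 1 + q = m + q + 1 by ring, S_succ]
        have t3 : S X (m + 1 + 2 * q) = S X (m + 2 * q) + s (x (m + 2 * q)) := by
          rw [show m + 1 + 2 * q = m + 2 * q + 1 by ring, S_succ]
        have t4 : S X (m + 1 + 3 * q) = S X (m + 3 * q) + s (x (m + 3 * q)) := by
          rw [show m + 1 + 3 * q = m + 3 * q + 1 by ring, S_succ]
        rw [t2, t3, t4]
        have e0 : P (x (m + 2 * q)) r = P (x (m + q)) r - s (x (m + q)) • α + s (x (m + 2 * q)) • α := by
          rw [p2]; abel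
        have e1 : P (x (m + 3 * q)) r = P (x (m + q)) r - s (x (m + q)) • α + s (x (m + 3 * q)) • α := by
          rw [p2, p3]; abel
        rw [e0, e1]
        module
      simpa using hα _ this

end Pool.Agent.Y345.AC
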