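import Pool.Agent.Y345.AC.P3
import Pool.Agent.Y345.AC.P5
import Pool.Agent.Helper776.Complete

set_option autoImplicit false

/-!
Additive cubes over finite subsets of abelian groups.
-/

namespace Pool.Agent.Y345.AC

open Finset Pool.Agent.Helper776 Pool.Agent.Helper776.Dekking

/-- The word `w` contains no additive cube. -/
def Free {M : Type*} [AddCommMonoid M] (w : ℕ → M) : Prop :=
  ∀ p L : ℕ, 0 < L →
    ¬ ((∑ k ∈ range L, w (p + k)) = (∑ k ∈ range L, w (p + L + k)) ∧
       (∑ k ∈ range L, w (p + L + k)) = (∑ k ∈ range L, w (p + 2 * L + k)))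

theorem block_cubeV {V : Type*} [AddCommGroup V] (v : ℕ → V) (p L : ℕ)
    (h1 : ∑ k ∈ range L, v (p + k) = ∑ k ∈ range L, v (p + L + k))
    (h2 : ∑ k ∈ range L, v (p + L + k) = ∑ k ∈ range L, v (p + 2 * L + k)) : IsCube v p L := by
  have e1 := S_add v p L
  have e2 := S_add v (p + L) L
  have e3 := S_add v (p + 2 * L) L
  rw [show p + L + L = p + 2 * L by ring] at e2
  rw [show p + 2 * L + L = p + 3 * L by ring] at e3
  constructor
  · rw [e2, e1, h1]; simp only [two_smul]; abel
  · rw [e3, e2, h2]; simp only [two_smul]; abel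

/-- Prefix sums commute with homomorphisms. -/
theorem S_map {V U : Type*} [AddCommGroup V] [AddCommGroup U] (φ : V →+ U) (y : ℕ → V) (n : ℕ) :
    S (fun i => φ (y i)) n = φ (S y n) := by
  simp [S, map_sum]

/-- recoding of the ternary word with balanced letter 1 -/
def big (n : ℕ) : ℕ := if Ternary.y n = 0 then 2 else if Ternary.y n = 1 then 1 else 0

theorem big_no_cube (q : ℕ) (hq : 6 ≤ q) (n k : ℕ) (hk : 0 < k) :
    ¬ IsCube (fun i => lv q (big i)) n k := by
  intro h
  let Φ : ℤ × ℤ →+ ℤ × ZMod q := AddMonoidHom.prodMap (AddMonoidHom.id ℤ) (Int.castAddHom (ZMod q))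
  have hΦ : (fun i => lv q (big i)) = fun i => Φ (Ternary.yv i) := by
    funext i
    simp only [lv, big, Ternary.yv, Ternary.isz, Ternary.iso, Φ, AddMonoidHom.prodMap_def]
    by_cases h0 : Ternary.y i = 0
    · simp [h0]
    · by_cases h1 : Ternary.y i = 1
      · simp [h1]
      · simp [h0, h1]
  rw [hΦ] at h
  obtain ⟨h1, h2⟩ := h
  simp only [S_map] at h1 h2
  have key : ∀ X Y Z : ℤ × ℤ, |X.2 - 2 * Y.2 + Z.2| ≤ 5 → Φ X - 2 • Φ Y + Φ Z = 0 →
      X - 2 • Y + Z = 0 := by
    intro X Y Z hb hz
    have e : Φ (X - 2 • Y + Z) = 0 := by rw [map_add, map_sub, map_nsmul]; exact hz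
    have e1 : (X - 2 • Y + Z).1 = 0 := congrArg Prod.fst e
    have e2 : (((X - 2 • Y + Z).2 : ℤ) : ZMod q) = 0 := congrArg Prod.snd e
    rw [ZMod.intCast_zmod_eq_zero_iff_dvd] at e2
    have e3 : (X - 2 • Y + Z).2 = X.2 - 2 * Y.2 + Z.2 := by simp
    have e4 : (X - 2 • Y + Z).2 = 0 := by
      apply Int.eq_zero_of_abs_lt_dvd e2
      rw [e3]
      have : (6 : ℤ) ≤ q := by exact_mod_cast hq
      omega
    exact Prod.ext e1 e4
  have b1 := Ternary.ones_balanced n k
  have b2 := Ternary.ones_balanced (n + k) k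
  rw [show n + k + k = n + 2 * k by ring, show n + k + 2 * k = n + 3 * k by ring] at b2
  exact Ternary.no_cube n k hk ⟨key _ _ _ b1 h1, key _ _ _ b2 h2⟩

theorem exists_word (q : ℕ) (hq : q.Prime) (h2 : q ≠ 2) :
    ∃ v : ℕ → ℕ, ∀ n k, 0 < k → ¬ IsCube (fun i => lv q (v i)) n k := by
  rcases Nat.lt_or_ge q 6 with h | h
  · have : q = 3 ∨ q = 5 := by
      have h3 := hq.two_le
      interval_cases q
      · exact absurd rfl h2
      · exact Or.inl rfl
      · exact absurd hq (by norm_num)
      · exact Or.inr rfl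
    rcases this with rfl | rfl
    · exact ⟨P3.y, P3.no_cube⟩
    · exact ⟨P5.y, P5.no_cube⟩
  · exact ⟨big, big_no_cube q h⟩

/-- transfer of a word over `ℤ × ZMod q` -/
theorem lift_word {M : Type*} [AddCommGroup M] (a t u : M) (q : ℕ)
    (hrel : ∀ x y : ℤ, x • u + y • t = 0 → x = 0 ∧ (q : ℤ) ∣ y)
    (v : ℕ → ℕ) (hv : ∀ n k, 0 < k → ¬ IsCube (fun i => lv q (v i)) n k) :
    Free (fun n => a + (if v n = 2 then u else if v n = 1 then t else 0)) := by
  intro p L hL h
  set c : ℕ → ℤ × ℤ := fun n => ((if v n = 2 then 1 else 0), (if v n = 1 then 1 else 0)) with hc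
  let Ψ : ℤ × ℤ →+ M := AddMonoidHom.coprod ((zmultiplesHom M) u) ((zmultiplesHom M) t)
  have hΨ : ∀ X : ℤ × ℤ, Ψ X = X.1 • u + X.2 • t := fun X => rfl
  let Φ : ℤ × ℤ →+ ℤ × ZMod q := AddMonoidHom.prodMap (AddMonoidHom.id ℤ) (Int.castAddHom (ZMod q))
  have hw : ∀ n, a + (if v n = 2 then u else if v n = 1 then t else 0) = a + Ψ (c n) := by
    intro n
    rw [hΨ]
    simp only [hc]
    by_cases h2 : v n = 2
    · simp [h2]
    · by_cases h1 : v n = 1
      · simp [h1]
      · simp [h1, h2]
  have hl : ∀ n, lv q (v n) = Φ (c n) := by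
    intro n
    simp only [lv, hc, Φ, AddMonoidHom.prodMap_def]
    by_cases h2 : v n = 2
    · simp [h2]
    · by_cases h1 : v n = 1
      · simp [h1]
      · simp [h1, h2]
  have hs : ∀ j, (∑ k ∈ range L, (a + (if v (j + k) = 2 then u else if v (j + k) = 1 then t else 0)))
      = L • a + Ψ (∑ k ∈ range L, c (j + k)) := by
    intro j
    rw [sum_congr rfl fun k _ => hw (j + k), sum_add_distrib, map_sum]
    simp
  have step : ∀ i j, (∑ k ∈ range L, (a + (if v (i + k) = 2 then u else if v (i + k) = 1 then t else 0)))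
      = (∑ k ∈ range L, (a + (if v (j + k) = 2 then u else if v (j + k) = 1 then t else 0))) →
      (∑ k ∈ range L, lv q (v (i + k))) = ∑ k ∈ range L, lv q (v (j + k)) := by
    intro i j hij
    rw [hs, hs] at hij
    have h1 := add_left_cancel hij
    have h2 : Ψ (∑ k ∈ range L, c (i + k) - ∑ k ∈ range L, c (j + k)) = 0 := by
      rw [map_sub, h1, sub_self]
    rw [hΨ] at h2
    obtain ⟨g1, g2⟩ := hrel _ _ h2
    rw [sum_congr rfl fun k _ => hl (i + k), sum_congr rfl fun k _ => hl (j + k), ← map_sum, ← map_sum,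
      ← sub_eq_zero, ← map_sub]
    refine Prod.ext g1 ?_
    exact (ZMod.intCast_zmod_eq_zero_iff_dvd _ q).2 g2
  exact hv p L hL (block_cubeV _ p L (step p (p + L) h.1) (step (p + L) (p + 2 * L) h.2))

/-- an element of infinite order -/
def NonTor {M : Type*} [AddCommGroup M] (x : M) : Prop := ∀ z : ℤ, z • x = 0 → z = 0

theorem not_nonTor {M : Type*} [AddCommGroup M] (x : M) (h : ¬ NonTor x) :
    ∃ m : ℕ, 0 < m ∧ m • x = 0 := by
  unfold NonTor at h
  push Not at h
  obtain ⟨z, hz, hne⟩ := h
  refine ⟨z.natAbs, Int.natAbs_pos.2 hne, ?_⟩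
  rcases Int.natAbs_eq z with h1 | h1
  · rw [h1, natCast_zsmul] at hz; exact hz
  · rw [h1, neg_smul, neg_eq_zero, natCast_zsmul] at hz; exact hz

theorem torsion_case {M : Type*} [AddCommGroup M] (hM : ∀ x : M, 2 • x = 0 → x = 0)
    (a b c : M) (hab : a ≠ b) (ht : ¬ NonTor (b - a)) (hu : NonTor (c - a)) :
    ∃ w : ℕ → M, (∀ n, w n = a ∨ w n = b ∨ w n = c) ∧ Free w := by
  set t := b - a with htd
  set u := c - a with hud
  have ht0 : t ≠ 0 := by
    intro h
    exact hab (sub_eq_zero.1 h).symm
  obtain ⟨m0, hm0, hmt⟩ := not_nonTor t ht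
  have hfin : IsOfFinAddOrder t := isOfFinAddOrder_iff_nsmul_eq_zero.2 ⟨m0, hm0, hmt⟩
  set o := addOrderOf t with ho
  have hopos : 0 < o := hfin.addOrderOf_pos
  have hone : o ≠ 1 := by
    intro h
    exact ht0 (AddMonoid.addOrderOf_eq_one_iff.1 h)
  obtain ⟨q, hq, hqo⟩ := Nat.exists_prime_and_dvd hone
  have hq2 : q ≠ 2 := by
    rintro rfl
    obtain ⟨e, he⟩ := hqo
    have h1 : 2 • (e • t) = 0 := by
      rw [← mul_smul, ← he, ho]; exact addOrderOf_nsmul_eq_zero t
    have h2 := hM _ h1
    have h3 := addOrderOf_dvd_of_nsmul_eq_zero h2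
    rw [← ho, he] at h3
    have h4 : 0 < e := by
      rcases Nat.eq_zero_or_pos e with h | h
      · rw [h] at he; omega
      · exact h
    have := Nat.le_of_dvd h4 h3
    omega
  obtain ⟨v, hv⟩ := exists_word q hq hq2
  refine ⟨_, fun n => ?_, lift_word a t u q ?_ v hv⟩
  · by_cases h2 : v n = 2
    · right; right; simp [h2, hud]
    · by_cases h1 : v n = 1
      · right; left; simp [h1, htd]
      · left; simp [h1, h2]
  · intro x y hxy
    have h1 : ((o : ℤ) * x) • u = 0 := by
      have h := congrArg (fun z => (o : ℤ) • z) hxy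
      simp only [smul_add, smul_zero, ← mul_smul] at h
      have h3 : ((o : ℤ) * y) • t = 0 := by
        rw [mul_comm, mul_smul, natCast_zsmul, ho, addOrderOf_nsmul_eq_zero, smul_zero]
      rw [h3, add_zero] at h
      exact h
    have h2 := hu _ h1
    have hx : x = 0 := by
      rcases mul_eq_zero.1 h2 with h | h
      · have : (o : ℤ) ≠ 0 := by exact_mod_cast hopos.ne'
        exact absurd h this
      · exact h
    refine ⟨hx, ?_⟩
    rw [hx, zero_smul, zero_add] at hxy
    have h4 : (o : ℤ) ∣ y := by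
      rw [ho]
      exact addOrderOf_dvd_iff_zsmul_eq_zero.2 hxy
    exact dvd_trans (by exact_mod_cast hqo) h4

theorem nontorsion_case {M : Type*} [AddCommGroup M] (a b c : M)
    (hb : NonTor (b - a)) (hc : NonTor (c - a)) (hbc : NonTor (b - c)) :
    ∃ w : ℕ → M, (∀ n, w n = a ∨ w n = b ∨ w n = c) ∧ Free w := by
  have hβ : ∃ β γ : ℤ, β ≠ 0 ∧ γ ≠ 0 ∧ β ≠ γ ∧
      ∀ x y : ℤ, x • (b - a) + y • (c - a) = 0 → x * β + y * γ = 0 := by
    by_cases h : ∃ x y : ℤ, (x ≠ 0 ∨ y ≠ 0) ∧ x • (b - a) + y • (c - a) = 0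
    · obtain ⟨x0, y0, hne, h0⟩ := h
      have hx0 : x0 ≠ 0 := by
        intro h
        rw [h, zero_smul, zero_add] at h0
        have := hc _ h0
        rcases hne with h' | h'
        · exact h' h
        · exact h' this
      have hy0 : y0 ≠ 0 := by
        intro h
        rw [h, zero_smul, add_zero] at h0
        exact hx0 (hb _ h0)
      refine ⟨y0, -x0, hy0, by simpa using hx0, ?_, ?_⟩
      · intro h
        rw [h] at h0
        have : x0 • (b - c) = 0 := by
          rw [← h0]; module
        exact hx0 (hbc _ this)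
      · intro x y hxy
        have h1 : (x0 * y - x * y0) • (c - a) = 0 := by
          have : (x0 * y - x * y0) • (c - a) =
              x0 • (x • (b - a) + y • (c - a)) - x • (x0 • (b - a) + y0 • (c - a)) := by module
          rw [this, hxy, h0]; simp
        have := hc _ h1
        linarith
    · push Not at h
      refine ⟨1, 2, by norm_num, by norm_num, by norm_num, ?_⟩
      intro x y hxy
      by_cases hx : x = 0
      · by_cases hy : y = 0
        · rw [hx, hy]; norm_num
        · exact absurd hxy (h x y (Or.inr hy))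
      · exact absurd hxy (h x y (Or.inl hx))
  obtain ⟨β, γ, hβ0, hγ0, hβγ, hrel⟩ := hβ
  obtain ⟨w', hw', hcf⟩ := Complete.set_full {0, β, γ} (by
    rw [card_insert_of_notMem, card_insert_of_notMem, card_singleton]
    · simpa using hβγ
    · simp only [mem_insert, mem_singleton, not_or]
      exact ⟨hβ0.symm, hγ0.symm⟩)
  set c1 : ℕ → ℤ := fun n => if w' n = β then 1 else 0 with hc1
  set c2 : ℕ → ℤ := fun n => if w' n = γ then 1 else 0 with hc2
  have hw'' : ∀ n, w' n = c1 n * β + c2 n * γ := by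
    intro n
    have := hw' n
    simp only [mem_insert, mem_singleton] at this
    simp only [hc1, hc2]
    rcases this with h | h | h
    · rw [if_neg (by rw [h]; exact hβ0.symm), if_neg (by rw [h]; exact hγ0.symm), h]; ring
    · rw [if_pos h, if_neg (by rw [h]; exact hβγ), h]; ring
    · rw [if_neg (by rw [h]; exact hβγ.symm), if_pos h, h]; ring
  refine ⟨fun n => a + (c1 n • (b - a) + c2 n • (c - a)), fun n => ?_, ?_⟩
  · have := hw' n
    simp only [mem_insert, mem_singleton] at this
    simp only [hc1, hc2]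
    rcases this with h | h | h
    · left
      rw [if_neg (by rw [h]; exact hβ0.symm), if_neg (by rw [h]; exact hγ0.symm)]; simp
    · right; left
      rw [if_pos h, if_neg (by rw [h]; exact hβγ)]; simp
    · right; right
      rw [if_neg (by rw [h]; exact hβγ.symm), if_pos h]; simp
  · intro p L hL h
    have hs : ∀ j, (∑ k ∈ range L, (a + (c1 (j + k) • (b - a) + c2 (j + k) • (c - a)))) =
        L • a + ((∑ k ∈ range L, c1 (j + k)) • (b - a) + (∑ k ∈ range L, c2 (j + k)) • (c - a)) := by
      intro j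
      rw [sum_add_distrib, sum_add_distrib, sum_smul, sum_smul]
      simp
    have step : ∀ i j, (∑ k ∈ range L, (a + (c1 (i + k) • (b - a) + c2 (i + k) • (c - a)))) =
        (∑ k ∈ range L, (a + (c1 (j + k) • (b - a) + c2 (j + k) • (c - a)))) →
        (∑ k ∈ range L, w' (i + k)) = ∑ k ∈ range L, w' (j + k) := by
      intro i j hij
      rw [hs, hs] at hij
      have h1 := add_left_cancel hij
      have h2 : (∑ k ∈ range L, c1 (i + k) - ∑ k ∈ range L, c1 (j + k)) • (b - a) +
          (∑ k ∈ range L, c2 (i + k) - ∑ k ∈ range L, c2 (j + k)) • (c - a) = 0 := by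
        rw [sub_smul, sub_smul]
        rw [← sub_eq_zero] at h1
        rw [← h1]
        abel
      have h3 := hrel _ _ h2
      rw [sum_congr rfl fun k _ => hw'' (i + k), sum_congr rfl fun k _ => hw'' (j + k),
        sum_add_distrib, sum_add_distrib, ← sum_mul, ← sum_mul, ← sum_mul, ← sum_mul]
      linarith
    exact hcf p L hL ⟨step p (p + L) h.1, step (p + L) (p + 2 * L) h.2⟩

/-- over two letters additive cubes cannot be avoided -/
theorem two_letters {M : Type*} [AddCommGroup M] (a b : M) (w : ℕ → M)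
    (hw : ∀ n, w n = a ∨ w n = b) : ¬ Free w := by
  classical
  intro hcf
  set c : ℕ → ℕ := fun n => if w n = a then 1 else 0 with hc
  have hc2 : ∀ n, c n < 2 := by
    intro n; simp only [hc]; split_ifs <;> norm_num
  have hwc : ∀ n, w n = b + c n • (a - b) := by
    intro n
    simp only [hc]
    by_cases h : w n = a
    · simp [h]
    · have h2 := (hw n).resolve_left h
      rw [if_neg h, h2]
      simp
  obtain ⟨p, _, L, _, hL0, hpL, e1, e2⟩ := Assemble.binary (c 0) (hc2 0) (c 1) (hc2 1) (c 2) (hc2 2)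
    (c 3) (hc2 3) (c 4) (hc2 4) (c 5) (hc2 5) (c 6) (hc2 6) (c 7) (hc2 7) (c 8) (hc2 8)
    (c 9) (hc2 9)
  have hg : ∀ i < 10, [c 0, c 1, c 2, c 3, c 4, c 5, c 6, c 7, c 8, c 9].getD i 0 = c i := by
    intro i hi
    interval_cases i <;> rfl
  have s : ∀ q, q + L ≤ 10 →
      (∑ k ∈ range L, [c 0, c 1, c 2, c 3, c 4, c 5, c 6, c 7, c 8, c 9].getD (q + k) 0) =
        ∑ k ∈ range L, c (q + k) := by
    intro q hq
    refine sum_congr rfl fun k hk => ?_
    rw [mem_range] at hk
    exact hg _ (by omega)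
  rw [s p (by omega), s (p + L) (by omega)] at e1
  rw [s (p + L) (by omega), s (p + 2 * L) (by omega)] at e2
  have t : ∀ q, (∑ k ∈ range L, w (q + k)) = L • b + (∑ k ∈ range L, c (q + k)) • (a - b) := by
    intro q
    rw [sum_congr rfl fun k _ => hwc (q + k), sum_add_distrib, sum_smul]
    simp
  apply hcf p L hL0
  rw [t, t, t, e1, e2]
  exact ⟨rfl, rfl⟩

/-- the subgroup generated by the differences of elements of `A` -/
def diffGroup {M : Type*} [AddCommGroup M] (A : Finset M) : AddSubgroup M :=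
  AddSubgroup.closure {d : M | ∃ x ∈ A, ∃ y ∈ A, d = x - y}

/-- if the differences generate a finite group, additive cubes cannot be avoided -/
theorem finite_diff {M : Type*} [AddCommGroup M] (A : Finset M)
    (hfin : (diffGroup A : Set M).Finite) (w : ℕ → M) (hw : ∀ n, w n ∈ A) : ¬ Free w := by
  intro hcf
  have hmem : ∀ n, S w n - n • w 0 ∈ diffGroup A := by
    intro n
    induction n with
    | zero => simp [S]
    | succ n ih =>
      rw [S_succ, succ_nsmul]
      have h1 : w n - w 0 ∈ diffGroup A :=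
        AddSubgroup.subset_closure ⟨w n, hw n, w 0, hw 0, rfl⟩
      have := (diffGroup A).add_mem ih h1
      have e : S w n + w n - (n • w 0 + w 0) = S w n - n • w 0 + (w n - w 0) := by abel
      rw [e]; exact this
  have : Finite (diffGroup A) := hfin
  obtain ⟨L, hL, b, c, hmono⟩ := Combinatorics.exists_mono_homothetic_copy (M := ℕ)
    ({0, 1, 2, 3} : Finset ℕ) (fun n => (⟨S w n - n • w 0, hmem n⟩ : diffGroup A))
  have h0 := hmono 0 (by simp)
  have h1 := hmono 1 (by simp)
  have h2 := hmono 2 (by simp)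
  have h3 := hmono 3 (by simp)
  simp only [smul_eq_mul, mul_zero, zero_add, mul_one] at h0 h1 h2 h3
  have g1 := congrArg Subtype.val (h0.trans h1.symm)
  have g2 := congrArg Subtype.val (h1.trans h2.symm)
  have g3 := congrArg Subtype.val (h2.trans h3.symm)
  simp only at g1 g2 g3
  have e1 := S_add w b L
  have e2 := S_add w (b + L) L
  have e3 := S_add w (b + 2 * L) L
  rw [show b + L + L = b + 2 * L by ring] at e2
  rw [show b + 2 * L + L = b + 3 * L by ring] at e3
  rw [show L + b = b + L by ring] at g1 g2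
  rw [show L * 2 + b = b + 2 * L by ring] at g2 g3
  rw [show L * 3 + b = b + 3 * L by ring] at g3
  have k1 : ∑ k ∈ range L, w (b + k) = L • w 0 := by
    have : ∑ k ∈ range L, w (b + k) = S w (b + L) - S w b := by rw [e1]; abel
    rw [this]
    have h := g1
    rw [add_smul] at h
    have h' : S w (b + L) - S w b = L • w 0 := by
      have e : S w (b + L) - S w b = (S w (b + L) - (b • w 0 + L • w 0)) - (S w b - b • w 0) + L • w 0 := by
        abel
      rw [e, ← h, sub_self, zero_add]
    exact h'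
  have k2 : ∑ k ∈ range L, w (b + L + k) = L • w 0 := by
    have : ∑ k ∈ range L, w (b + L + k) = S w (b + 2 * L) - S w (b + L) := by rw [e2]; abel
    rw [this]
    have h := g2
    have e : (b + 2 * L) • w 0 = (b + L) • w 0 + L • w 0 := by rw [← add_smul]; congr 1; ring
    rw [e] at h
    have e' : S w (b + 2 * L) - S w (b + L) =
        (S w (b + 2 * L) - ((b + L) • w 0 + L • w 0)) - (S w (b + L) - (b + L) • w 0) + L • w 0 := by
      abel
    rw [e', ← h, sub_self, zero_add]
  have k3 : ∑ k ∈ range L, w (b + 2 * L + k) = L • w 0 := by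
    have : ∑ k ∈ range L, w (b + 2 * L + k) = S w (b + 3 * L) - S w (b + 2 * L) := by rw [e3]; abel
    rw [this]
    have h := g3
    have e : (b + 3 * L) • w 0 = (b + 2 * L) • w 0 + L • w 0 := by rw [← add_smul]; congr 1; ring
    rw [e] at h
    have e' : S w (b + 3 * L) - S w (b + 2 * L) =
        (S w (b + 3 * L) - ((b + 2 * L) • w 0 + L • w 0)) - (S w (b + 2 * L) - (b + 2 * L) • w 0) + L • w 0 := by
      abel
    rw [e', ← h, sub_self, zero_add]
  exact hcf b L hL ⟨k1.trans k2.symm, k2.trans k3.symm⟩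

/-- if the differences generate an infinite group, some difference has infinite order -/
theorem exists_nonTor {M : Type*} [AddCommGroup M] (A : Finset M)
    (hinf : (diffGroup A : Set M).Infinite) : ∃ a ∈ A, ∃ c ∈ A, NonTor (c - a) := by
  classical
  by_contra hno
  push Not at hno
  apply hinf
  have hle : diffGroup A ≤ AddCommGroup.torsion M := by
    unfold diffGroup
    rw [AddSubgroup.closure_le]
    rintro d ⟨x, hx, y, hy, rfl⟩
    obtain ⟨m, hm, hmd⟩ := not_nonTor _ (hno y hy x hx)
    exact isOfFinAddOrder_iff_nsmul_eq_zero.2 ⟨m, hm, hmd⟩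
  have hfg : (diffGroup A).FG := by
    refine ⟨(A ×ˢ A).image (fun z => z.1 - z.2), ?_⟩
    unfold diffGroup
    congr 1
    ext d
    simp only [coe_image, coe_product, Set.mem_image, Set.mem_prod, mem_coe, Prod.exists,
      Set.mem_ofPred_eq]
    constructor
    · rintro ⟨x, y, ⟨hx, hy⟩, rfl⟩; exact ⟨x, hx, y, hy, rfl⟩
    · rintro ⟨x, hx, y, hy, rfl⟩; exact ⟨x, y, ⟨hx, hy⟩, rfl⟩
  have : AddGroup.FG (diffGroup A) := (AddGroup.fg_iff_addSubgroup_fg _).2 hfg
  have htor : IsAddTorsion (diffGroup A) := by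
    intro x
    have := hle x.2
    exact AddSubmonoid.isOfFinAddOrder_coe.1 this
  have := AddCommGroup.finite_of_fg_isAddTorsion (diffGroup A) htor
  exact this

theorem main {M : Type*} [AddCommGroup M] (hM : ∀ x : M, 2 • x = 0 → x = 0) (A : Finset M) :
    (∃ w : ℕ → M, (∀ n, w n ∈ A) ∧ Free w) ↔
      (3 ≤ A.card ∧ (diffGroup A : Set M).Infinite) := by
  classical
  constructor
  · rintro ⟨w, hw, hcf⟩
    refine ⟨?_, ?_⟩
    · by_contra hlt
      have hpos : 0 < A.card := card_pos.2 ⟨w 0, hw 0⟩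
      have : ∃ a b : M, ∀ x ∈ A, x = a ∨ x = b := by
        rcases (show A.card = 1 ∨ A.card = 2 by omega) with h1 | h2
        · obtain ⟨a, rfl⟩ := card_eq_one.1 h1
          exact ⟨a, a, fun x hx => Or.inl (mem_singleton.1 hx)⟩
        · obtain ⟨a, b, _, rfl⟩ := card_eq_two.1 h2
          exact ⟨a, b, fun x hx => by simpa using hx⟩
      obtain ⟨a, b, hab⟩ := this
      exact two_letters a b w (fun n => hab _ (hw n)) hcf
    · intro hfin
      exact finite_diff A hfin w hw hcf
  · rintro ⟨h3, hinf⟩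
    obtain ⟨a, ha, c, hc, hac⟩ := exists_nonTor A hinf
    have hne : a ≠ c := by
      rintro rfl
      have := hac 1 (by simp)
      exact one_ne_zero this
    have : ∃ b ∈ A, b ≠ a ∧ b ≠ c := by
      by_contra hno
      push Not at hno
      have hsub : A ⊆ {a, c} := by
        intro x hx
        simp only [mem_insert, mem_singleton]
        by_cases h : x = a
        · exact Or.inl h
        · exact Or.inr (hno x hx h)
      have h1 := card_le_card hsub
      have h2 : ({a, c} : Finset M).card ≤ 2 := card_le_two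
      omega
    obtain ⟨b, hb, hba, hbc⟩ := this
    have neg : ∀ x : M, NonTor x → NonTor (-x) := by
      intro x hx z hz
      rw [smul_neg, neg_eq_zero] at hz
      exact hx z hz
    have fin : ∀ w : ℕ → M, (∀ n, w n = a ∨ w n = b ∨ w n = c) → ∀ n, w n ∈ A := by
      intro w hw n
      rcases hw n with h | h | h <;> rw [h] <;> assumption
    by_cases h1 : NonTor (b - a)
    · by_cases h2 : NonTor (b - c)
      · obtain ⟨w, hw, hcf⟩ := nontorsion_case a b c h1 hac h2
        exact ⟨w, fin w hw, hcf⟩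
      · have hca : NonTor (a - c) := by
          have := neg _ hac
          rwa [neg_sub] at this
        obtain ⟨w, hw, hcf⟩ := torsion_case hM c b a hbc.symm h2 hca
        refine ⟨w, fun n => ?_, hcf⟩
        rcases hw n with h | h | h <;> rw [h] <;> assumption
    · obtain ⟨w, hw, hcf⟩ := torsion_case hM a b c hba.symm h1 hac
      exact ⟨w, fin w hw, hcf⟩

end Pool.Agent.Y345.AC
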