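import Pool.Agent.Y345.AC.CertV
import Pool.Agent.Helper776.T012

set_option autoImplicit false

/-!
A word over the letters 0, 1, 2 such that no three consecutive blocks of the same length have the
same number of letters 2 and congruent numbers of letters 1 modulo 3.
-/

namespace Pool.Agent.Y345.AC.P3

open Pool.Agent.Helper776 Pool.Agent.Helper776.Dekking

def gcode (a : ℕ) : ℕ :=
    if a = 0 then 12179625618957891881284 else
    if a = 1 then 12179625618957997328705 else
    12179625618957996172938

def ucode (a : ℕ) : ℕ :=
    if a = 0 then 294483005566755834388364474598192919185358413578908930068618985982158080777363429153870708736 else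
    if a = 1 then 425364564140341011005706490907601749736994720095860692933021045205140607191121812428651757568 else
    556246122713926187623048507217010580288631026612812455797423104507972698250048700882306072832

def tcode (a : ℕ) : ℕ :=
    if a = 0 then 425365065356503755149976944811936020290391827236068036882191842761665720985209719608485937152 else
    if a = 1 then 392644675713107460995641440734583812652482750606830096166091307574319932077673935849425797376 else
    261763117139522284378299424425174982100846444089878333301689248271489054703971030808886509568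

def g (a r : ℕ) : ℕ := (gcode a >>> (2 * r)) % 4
def pu (a r : ℕ) : ℕ := (ucode a >>> (8 * r)) % 256
def pt (a r : ℕ) : ℕ := (tcode a >>> (8 * r)) % 256

def mask : ℕ := 184548961263590991159964007707100748315388644799664703092783747319637000381023406208156470052657209322147469775886550690653958496585729

def M : ℕ := 1188900948226325416735548742299597565110362825791313258371953246629836405523529888445317045235075633153965145071388624663550346167993402850356362561489283819186143985721618311795141241018759263360880517310361274873575103609258964315141678293549206436099065128128479414460991331780061741666696387670439687856227899740566555463615503199099898596337196096932182753323946543981708803316505061864671047278028723717128470397040406906215621411339736747828708075544118071577301621944993276206273432895893497962876382191988295126929608472293564731759790081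

theorem c0 : ∀ a < 3, pu a 0 = 0 ∧ pt a 0 = 0 := by decide +kernel
theorem cU : ∀ a < 3, pu a 38 = 9 + 4 * T012.w a := by decide +kernel
theorem cT : ∀ a < 3, pt a 38 % 3 = (13 + 2 * T012.w a) % 3 := by decide +kernel
theorem csu : ∀ a < 3, ∀ r < 38, pu a (r + 1) = pu a r + (if g a r = 2 then 1 else 0) := by
  decide +kernel
theorem cst : ∀ a < 3, ∀ r < 38, pt a (r + 1) = pt a r + (if g a r = 1 then 1 else 0) := by
  decide +kernel
theorem cg : ∀ a < 3, ∀ r < 38, g a r < 3 := by decide +kernel
theorem cm : ∀ a < 3, ∀ r < 38, mask.testBit (clsV 38 12 83 1 4 pu pt a r) = true := by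
  decide +kernel
theorem cM' : ∀ q < 4 * 12, ∀ r < 38, M.testBit (38 * q + r) =
    mask.testBit ((38 * q + r) % (38 * 12)) := by
  decide +kernel
theorem cM (e : ℕ) (he : e < 4 * (38 * 12)) : M.testBit e = mask.testBit (e % (38 * 12)) := by
  have h := cM' (e / 38) (by omega) (e % 38) (Nat.mod_lt _ (by norm_num))
  rwa [Nat.div_add_mod] at h
theorem cA' : ∀ q < 12, ∀ r < 38, 0 < 38 * q + r →
    (mask &&& (M >>> (38 * q + r)) &&& (M >>> (2 * (38 * q + r))) &&&
      (M >>> (3 * (38 * q + r)))) = 0 := by decide +kernel
theorem cA (d : ℕ) (hd : d < 38 * 12) (h0 : 0 < d) :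
    (mask &&& (M >>> d) &&& (M >>> (2 * d)) &&& (M >>> (3 * d))) = 0 := by
  have h := cA' (d / 38) (by omega) (d % 38) (Nat.mod_lt _ (by norm_num))
  rw [Nat.div_add_mod] at h
  exact h h0
set_option synthInstance.maxSize 100000 in
theorem ct : ∀ r < 38, ∀ a0 < 3, ∀ a1 < 3, ∀ a2 < 3, ∀ a3 < 3,
      (clsV 38 12 83 1 4 pu pt a0 r = clsV 38 12 83 1 4 pu pt a1 r ∧
       clsV 38 12 83 1 4 pu pt a1 r = clsV 38 12 83 1 4 pu pt a2 r ∧
       clsV 38 12 83 1 4 pu pt a2 r = clsV 38 12 83 1 4 pu pt a3 r) →
      (((pu a0 r = pu a1 r ∧ pu a1 r = pu a2 r ∧ pu a2 r = pu a3 r) ∧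
        (pt a0 r % 3 = pt a1 r % 3 ∧ pt a1 r % 3 = pt a2 r % 3 ∧ pt a2 r % 3 = pt a3 r % 3)) ∨
       ((pu a0 r + 4 * T012.w a1 = pu a1 r + 4 * T012.w a0 ∧
         pu a1 r + 4 * T012.w a2 = pu a2 r + 4 * T012.w a1 ∧
         pu a2 r + 4 * T012.w a3 = pu a3 r + 4 * T012.w a2) ∧
        ((pt a0 r + 2 * T012.w a1) % 3 = (pt a1 r + 2 * T012.w a0) % 3 ∧
         (pt a1 r + 2 * T012.w a2) % 3 = (pt a2 r + 2 * T012.w a1) % 3 ∧
         (pt a2 r + 2 * T012.w a3) % 3 = (pt a3 r + 2 * T012.w a2) % 3))) := by
  decide +kernel

/-- the word -/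
def y (n : ℕ) : ℕ := g (T012.x (n / 38)) (n % 38)

theorem y_lt (n : ℕ) : y n < 3 := cg _ (T012.x_lt _) _ (Nat.mod_lt _ (by norm_num))

theorem y_at (m r : ℕ) (hr : r < 38) : y (38 * m + r) = g (T012.x m) r := by
  have h1 : (38 * m + r) / 38 = m := by omega
  have h2 : (38 * m + r) % 38 = r := by omega
  simp only [y, h1, h2]

theorem no_cube (n k : ℕ) (hk : 0 < k) : ¬ IsCube (fun i => lv 3 (y i)) n k := by
  intro h
  obtain ⟨m, q, rfl, hq⟩ := uniform_descentV 3 3 38 12 83 1 4 4 2 9 13 T012.w g pu pt
    mask M (by norm_num) (by norm_num) (by norm_num) (by norm_num) (by norm_num) (by norm_num)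
    (by norm_num) c0 cU cT csu cst cm cM cA ct T012.x T012.x_lt y y_at n k h
  exact T012.no_cube q m (by omega) hq

end Pool.Agent.Y345.AC.P3
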